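import Pool.Agent.H7.KC.Stmts
import Pool.Agent.H38.JB.NDC

/-!
# Board kc15 (MP_fd41b2_co), row NCJ: the debt changes little (after helper38's proof of NDC)
-/

set_option autoImplicit false

open Finset

namespace Pool.KC7

open Pool.Agent.H23.KT Pool.Agent.H46.KW Pool.KQ Pool.GT7 Pool.GU7 Pool.HZ7 Pool.IA7

theorem ncj_thm (hGC : GCJStmt) (hG : GCO0Stmt) : NCJStmt := by
  intro p w r hP C' hC'
  obtain ⟨hZ, hφ0, -, -, -, -⟩ := hGC p w r hP
  have hr1 : 1 ≤ r := by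
    have := hZ.rb
    omega
  obtain ⟨hw, -⟩ := hG p 0 r ⟨Nat.zero_le _, hr1, hZ.rp⟩
  have hφ : 0 ≤ pt p w r := hφ0.le
  have hc : 0 ≤ c1 p w := Nat.cast_nonneg _
  have hB0 : 0 ≤ c1 p w * pt p w r * (C' * (2 * ((p : ℝ) + 3)) ^ (p + 2)) := by positivity
  refine ⟨c1 p w * pt p w r * (C' * (2 * ((p : ℝ) + 3)) ^ (p + 2)) + 1, by linarith, ?_⟩
  intro a ha V _ G P P' z hPP hcard hdiff hL
  have ha0 : (0 : ℝ) < a := by exact_mod_cast ha
  have haw : (0 : ℝ) < (a : ℝ) ^ w := pow_pos ha0 _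
  have hsub : un P' ⊆ un P := by
    unfold un
    exact biUnion_mono fun i _ => hPP i
  have hX : ((un P).card : ℝ) ≤ 2 * ((p : ℝ) + 3) * a := by
    have h1 : (un P).card ≤ ∑ i, (P i).card := card_biUnion_le
    have h2 : ∑ i, (P i).card ≤ ∑ _i : Fin (p + 3), 2 * a := sum_le_sum fun i _ => hcard i
    rw [sum_const, card_univ, Fintype.card_fin, smul_eq_mul] at h2
    have h3 : ((un P).card : ℝ) ≤ (((p + 3) * (2 * a) : ℕ) : ℝ) := by exact_mod_cast h1.trans h2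
    push_cast at h3
    linarith
  have hn : (kc G (nb G (un P') z) (w + 1) : ℝ) ≤ kc G (nb G (un P) z) (w + 1) := by
    have : nb G (un P') z ⊆ nb G (un P) z := by
      intro y hy
      rw [mem_nb] at hy ⊢
      exact ⟨hsub hy.1, hy.2⟩
    exact_mod_cast kc_mono G this (w + 1)
  have hT : TZ G p r (un P) z - TZ G p r (un P') z ≤
      C' * (2 * ((p : ℝ) + 3) * a) ^ (p + 2) := by
    have hsubc : clq G (un P') (p + 3) ⊆ clq G (un P) (p + 3) := by
      intro L hL'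
      rw [mem_clq] at hL' ⊢
      exact ⟨hL'.1.trans hsub, hL'.2⟩
    unfold TZ
    rw [← sum_sdiff hsubc, add_sub_cancel_right]
    calc ∑ L ∈ clq G (un P) (p + 3) \ clq G (un P') (p + 3), ww p r (nb G L z).card
        ≤ ∑ _L ∈ clq G (un P) (p + 3) \ clq G (un P') (p + 3), (1 : ℝ) :=
          sum_le_sum fun L hL' => (hw _ (hL L (mem_sdiff.1 hL').1)).2.1
      _ = ((clq G (un P) (p + 3) \ clq G (un P') (p + 3)).card : ℝ) := by
          rw [sum_const, nsmul_eq_mul, mul_one]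
      _ ≤ ((un P \ un P').card : ℝ) * ((un P).card : ℝ) ^ (p + 2) := by
          exact_mod_cast Pool.JB7.NDCh.card_diff G (un P) (un P') (p + 2)
      _ ≤ C' * (2 * ((p : ℝ) + 3) * a) ^ (p + 2) :=
          mul_le_mul hdiff (pow_le_pow_left₀ (Nat.cast_nonneg _) hX _) (by positivity) hC'.le
  have hM : 0 ≤ Mt p w r a := by
    unfold Mt
    positivity
  have hMT : Mt p w r a * (TZ G p r (un P) z - TZ G p r (un P') z) ≤
      c1 p w * pt p w r * (C' * (2 * ((p : ℝ) + 3)) ^ (p + 2)) * (a : ℝ) ^ w := by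
    refine (mul_le_mul_of_nonneg_left hT hM).trans_eq ?_
    unfold Mt
    rw [mul_pow (2 * ((p : ℝ) + 3)) (a : ℝ) (p + 2), show p + 3 = (p + 2) + 1 from rfl,
      pow_succ (a : ℝ) (p + 2), pow_succ (a : ℝ) w]
    field_simp
  unfold ndj
  apply Pool.JB7.NDCh.max_step _ _ _ (by positivity)
  have e : (c1 p w * pt p w r * (C' * (2 * ((p : ℝ) + 3)) ^ (p + 2)) + 1) * (a : ℝ) ^ w =
    c1 p w * pt p w r * (C' * (2 * ((p : ℝ) + 3)) ^ (p + 2)) * (a : ℝ) ^ w + (a : ℝ) ^ w := by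
    ring
  rw [e]
  linarith

end Pool.KC7
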